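import Pool.Agent.W837.GB.Defs

set_option autoImplicit false
set_option maxHeartbeats 4000000

open MeasureTheory ProbabilityTheory Filter Topology
open scoped NNReal Matrix ComplexOrder
open Pool.Agent.W837.GB

namespace Pool.Agent.W756.GB

theorem isUnit_Q {ι : Type} [Fintype ι] [DecidableEq ι] (M : Matrix ι ι ℂ) (δ : ℝ) (hδ : 0 < δ) :
    IsUnit (Q M δ).det := by
  have h1 : (M * Mᴴ).PosSemidef := Matrix.posSemidef_self_mul_conjTranspose M
  have h2 : (((δ ^ 2 : ℝ) : ℂ) • (1 : Matrix ι ι ℂ)).PosDef := by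
    refine Matrix.PosDef.smul Matrix.PosDef.one ?_
    have : (0 : ℝ) < δ ^ 2 := by positivity
    exact_mod_cast this
  have h3 : (Q M δ).PosDef := by
    unfold Q
    rw [add_comm]
    exact h2.add_posSemidef h1
  exact h3.isUnit.map Matrix.detMonoidHom

theorem Hm_conj {κ : Type} (g : κ → κ → ℝ) (k l : κ) : star (Hm g l k) = Hm g k l := by
  simp only [Hm, star_add, star_mul', Complex.star_def, Complex.conj_ofReal, Complex.conj_I]
  push_cast
  ring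

theorem AN_apply {n : ℕ} {ν : Type} (a : Fin n → Matrix ν ν ℂ) (N : ℕ)
    (g : Fin n × Fin N × Fin N → ℝ) (x y : ν) (k l : Fin N) :
    AN a N g (x, k) (y, l) =
      (((Real.sqrt N)⁻¹ : ℝ) : ℂ) * ∑ j, a j x y * Hm (fun k l => g (j, k, l)) k l := by
  simp only [AN, W, Matrix.smul_apply, Matrix.sum_apply, smul_eq_mul]
  rfl

theorem AN_al {n m N : ℕ} (a : Fin n → Matrix (Fin m) (Fin m) ℂ) (g : Fin n × Fin N × Fin N → ℝ) :
    AN (al a) N g = (Matrix.fromBlocks 0 (AN a N g) (AN a N g)ᴴ 0).submatrix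
      (Equiv.sumProdDistrib (Fin m) (Fin m) (Fin N)) (Equiv.sumProdDistrib (Fin m) (Fin m) (Fin N)) := by
  ext ⟨s, k⟩ ⟨t, l⟩
  rw [AN_apply]
  rcases s with x | x <;> rcases t with y | y
  · simp [al, Equiv.sumProdDistrib]
  · simp [al, Equiv.sumProdDistrib, AN_apply]
  · simp only [al, Matrix.submatrix_apply, Equiv.sumProdDistrib_apply_right,
      Equiv.sumProdDistrib_apply_left, Matrix.fromBlocks_apply₂₁, Matrix.conjTranspose_apply,
      AN_apply, star_mul', star_sum, Hm_conj]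
    simp only [Complex.star_def, Complex.conj_ofReal]
  · simp [al, Equiv.sumProdDistrib]

theorem res_al {n m N : ℕ} (a : Fin n → Matrix (Fin m) (Fin m) ℂ) (g : Fin n × Fin N × Fin N → ℝ)
    (δ : ℝ) (hδ : 0 < δ) :
    res (AN (al a) N g) δ = (Matrix.fromBlocks (((δ : ℂ) * Complex.I) • (Q (AN a N g) δ)⁻¹)
      (AN a N g * (Q (AN a N g)ᴴ δ)⁻¹) ((AN a N g)ᴴ * (Q (AN a N g) δ)⁻¹)
      (((δ : ℂ) * Complex.I) • (Q (AN a N g)ᴴ δ)⁻¹)).submatrix
      (Equiv.sumProdDistrib (Fin m) (Fin m) (Fin N)) (Equiv.sumProdDistrib (Fin m) (Fin m) (Fin N)) := by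
  set A := AN a N g with hA
  have hQ1 : Q A δ * (Q A δ)⁻¹ = 1 := Matrix.mul_nonsing_inv _ (isUnit_Q A δ hδ)
  have hQ2 : Q Aᴴ δ * (Q Aᴴ δ)⁻¹ = 1 := Matrix.mul_nonsing_inv _ (isUnit_Q Aᴴ δ hδ)
  have hI : ((δ : ℂ) * Complex.I) * ((δ : ℂ) * Complex.I) = -((δ ^ 2 : ℝ) : ℂ) := by
    push_cast
    have := Complex.I_mul_I
    linear_combination (δ : ℂ) ^ 2 * this
  unfold res
  apply Matrix.inv_eq_right_inv
  have h1 : AN (al a) N g - ((δ : ℂ) * Complex.I) • (1 : Matrix _ _ ℂ) =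
      (Matrix.fromBlocks (-(((δ : ℂ) * Complex.I) • (1 : Matrix (Fin m × Fin N) (Fin m × Fin N) ℂ)))
        A Aᴴ (-(((δ : ℂ) * Complex.I) • (1 : Matrix (Fin m × Fin N) (Fin m × Fin N) ℂ)))).submatrix
      (Equiv.sumProdDistrib (Fin m) (Fin m) (Fin N)) (Equiv.sumProdDistrib (Fin m) (Fin m) (Fin N)) := by
    rw [AN_al, ← hA]
    have h2 : (1 : Matrix ((Fin m ⊕ Fin m) × Fin N) ((Fin m ⊕ Fin m) × Fin N) ℂ) =
        (Matrix.fromBlocks 1 0 0 1 :
          Matrix ((Fin m × Fin N) ⊕ (Fin m × Fin N)) ((Fin m × Fin N) ⊕ (Fin m × Fin N)) ℂ).submatrix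
        (Equiv.sumProdDistrib (Fin m) (Fin m) (Fin N))
        (Equiv.sumProdDistrib (Fin m) (Fin m) (Fin N)) := by
      rw [Matrix.fromBlocks_one, Matrix.submatrix_one_equiv]
    have h3 : (Matrix.fromBlocks (-(((δ : ℂ) * Complex.I) •
        (1 : Matrix (Fin m × Fin N) (Fin m × Fin N) ℂ)))
        A Aᴴ (-(((δ : ℂ) * Complex.I) • (1 : Matrix (Fin m × Fin N) (Fin m × Fin N) ℂ)))) =
        Matrix.fromBlocks 0 A Aᴴ 0 - ((δ : ℂ) * Complex.I) • (Matrix.fromBlocks 1 0 0 1 :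
          Matrix ((Fin m × Fin N) ⊕ (Fin m × Fin N)) ((Fin m × Fin N) ⊕ (Fin m × Fin N)) ℂ) := by
      rw [Matrix.fromBlocks_smul, sub_eq_add_neg, Matrix.fromBlocks_neg, Matrix.fromBlocks_add]
      simp
    rw [h2, h3]
    rfl
  rw [h1, Matrix.submatrix_mul_equiv, Matrix.fromBlocks_multiply]
  have hR1 : A * (Aᴴ * (Q A δ)⁻¹) + ((δ ^ 2 : ℝ) : ℂ) • (Q A δ)⁻¹ = 1 := by
    have h := hQ1
    conv_lhs at h => enter [1]; rw [Q]
    rw [Matrix.add_mul, Matrix.smul_mul, Matrix.one_mul, Matrix.mul_assoc] at h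
    exact h
  have hR2 : Aᴴ * (A * (Q Aᴴ δ)⁻¹) + ((δ ^ 2 : ℝ) : ℂ) • (Q Aᴴ δ)⁻¹ = 1 := by
    have h := hQ2
    conv_lhs at h => enter [1]; rw [Q]
    rw [Matrix.add_mul, Matrix.smul_mul, Matrix.one_mul, Matrix.conjTranspose_conjTranspose,
      Matrix.mul_assoc] at h
    exact h
  have e1 : -(((δ : ℂ) * Complex.I) • (1 : Matrix (Fin m × Fin N) (Fin m × Fin N) ℂ)) *
      (((δ : ℂ) * Complex.I) • (Q A δ)⁻¹) + A * (Aᴴ * (Q A δ)⁻¹) = 1 := by
    rw [neg_mul, Matrix.smul_mul, Matrix.one_mul, smul_smul, hI, neg_smul, neg_neg, add_comm]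
    exact hR1
  have e2 : -(((δ : ℂ) * Complex.I) • (1 : Matrix (Fin m × Fin N) (Fin m × Fin N) ℂ)) *
      (A * (Q Aᴴ δ)⁻¹) + A * (((δ : ℂ) * Complex.I) • (Q Aᴴ δ)⁻¹) = 0 := by
    rw [neg_mul, Matrix.smul_mul, Matrix.one_mul, Matrix.mul_smul, neg_add_cancel]
  have e3 : Aᴴ * (((δ : ℂ) * Complex.I) • (Q A δ)⁻¹) +
      -(((δ : ℂ) * Complex.I) • (1 : Matrix (Fin m × Fin N) (Fin m × Fin N) ℂ)) *
      (Aᴴ * (Q A δ)⁻¹) = 0 := by
    rw [neg_mul, Matrix.smul_mul, Matrix.one_mul, Matrix.mul_smul, add_neg_cancel]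
  have e4 : Aᴴ * (A * (Q Aᴴ δ)⁻¹) +
      -(((δ : ℂ) * Complex.I) • (1 : Matrix (Fin m × Fin N) (Fin m × Fin N) ℂ)) *
      (((δ : ℂ) * Complex.I) • (Q Aᴴ δ)⁻¹) = 1 := by
    rw [neg_mul, Matrix.smul_mul, Matrix.one_mul, smul_smul, hI, neg_smul, neg_neg]
    exact hR2
  rw [e1, e2, e3, e4, Matrix.fromBlocks_one, Matrix.submatrix_one_equiv]

theorem AN_neg {n m N : ℕ} (a : Fin n → Matrix (Fin m) (Fin m) ℂ) (g : Fin n × Fin N × Fin N → ℝ) :
    AN a N (-g) = - AN a N g := by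
  ext ⟨x, k⟩ ⟨y, l⟩
  rw [Matrix.neg_apply, AN_apply, AN_apply, ← mul_neg, ← Finset.sum_neg_distrib]
  congr 1
  apply Finset.sum_congr rfl
  intro j _
  rw [← mul_neg]
  congr 1
  simp only [Hm, Pi.neg_apply]
  push_cast
  ring

theorem gam_neg (ι : Type) [Fintype ι] (F : (ι → ℝ) → ℂ) :
    ∫ g, F (-g) ∂(gam ι) = ∫ g, F g ∂(gam ι) := by
  have h1 : (gaussianReal 0 1).IsNegInvariant := by
    refine ⟨?_⟩
    have := gaussianReal_map_neg (μ := 0) (v := 1)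
    rw [neg_zero] at this
    exact this
  have h2 : (gam ι).IsNegInvariant := by
    unfold gam
    infer_instance
  exact integral_neg_eq_self F (gam ι)

theorem gam_odd (ι : Type) [Fintype ι] (F : (ι → ℝ) → ℂ) (hF : ∀ g, F (-g) = - F g) :
    ∫ g, F g ∂(gam ι) = 0 := by
  have h := gam_neg ι F
  simp only [hF, integral_neg] at h
  have h2 : (2 : ℂ) * ∫ g, F g ∂(gam ι) = 0 := by linear_combination -h
  simpa using h2

theorem Q_neg {ι : Type} [Fintype ι] [DecidableEq ι] (M : Matrix ι ι ℂ) (δ : ℝ) :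
    Q (-M) δ = Q M δ := by
  unfold Q
  rw [Matrix.conjTranspose_neg, neg_mul_neg]

theorem blk : S_BLK := by
  intro n m N a δ hN hδ
  refine ⟨fun g x y => ⟨?_, ?_⟩, fun x y => ⟨?_, ?_⟩⟩
  · rw [res_al a g δ hδ]
    simp only [pt, Matrix.submatrix_apply, Equiv.sumProdDistrib_apply_left,
      Matrix.fromBlocks_apply₁₁, Matrix.smul_apply, smul_eq_mul, ← Finset.mul_sum]
    ring
  · rw [res_al a g δ hδ]
    simp only [pt, Matrix.submatrix_apply, Equiv.sumProdDistrib_apply_right,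
      Matrix.fromBlocks_apply₂₂, Matrix.smul_apply, smul_eq_mul, ← Finset.mul_sum]
    ring
  · apply gam_odd
    intro g
    simp only [res_al a _ δ hδ, pt, Matrix.submatrix_apply, Equiv.sumProdDistrib_apply_right,
      Equiv.sumProdDistrib_apply_left, Matrix.fromBlocks_apply₁₂, AN_neg, Matrix.conjTranspose_neg,
      Q_neg, Matrix.neg_mul, Matrix.neg_apply, Finset.sum_neg_distrib, mul_neg]
  · apply gam_odd
    intro g
    simp only [res_al a _ δ hδ, pt, Matrix.submatrix_apply, Equiv.sumProdDistrib_apply_right,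
      Equiv.sumProdDistrib_apply_left, Matrix.fromBlocks_apply₂₁, AN_neg, Matrix.conjTranspose_neg,
      Q_neg, Matrix.neg_mul, Matrix.neg_apply, Finset.sum_neg_distrib, mul_neg]

end Pool.Agent.W756.GB
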